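import Pool.Agent.W78.EG.Defs
import Pool.Agent.W499.EC.F4

/-!
# Project EG: a bounded count (port of `W499/EC/F4`)
-/

set_option autoImplicit false

namespace Pool.Agent.W164.EG

open Finset
open Pool.Agent.W78.EG
open Pool.Agent.W78.EC (SL cd dv)
open Pool.Agent.W499.EC (dvd_cd)

/-- BDD -/
theorem bdd : S_BDD := by
  intro C₀
  refine ⟨(2 * C₀ + 1) ^ 4, ?_⟩
  intro Q p r y R hpp hQp _ hR hy
  set T := (((range (R + 1) ×ˢ range (R + 1)) ×ˢ (range (R + 1) ×ˢ range (R + 1))).filter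
    (fun q => cd q.1 q.2 = p ∧ dv p r y q.1 ∧ dv p r y q.2)) with hT
  rcases T.eq_empty_or_nonempty with hE | ⟨q, hq⟩
  · rw [hE]; simp
  have hp0 : (0 : ℤ) < p := by exact_mod_cast hpp.pos
  -- bounds for determinants
  have hb : ∀ x z : ℕ × ℕ, x ∈ range (R + 1) ×ˢ range (R + 1) →
      z ∈ range (R + 1) ×ˢ range (R + 1) → dv p r y x → dv p r y z →
      cd x z / (p : ℤ) ∈ Icc (-(C₀ : ℤ)) C₀ ∧ cd x z = (p : ℤ) * (cd x z / (p : ℤ)) := by
    intro x z hx hz hx' hz'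
    have h1 := dvd_cd hpp hy hx' hz'
    have h2 : cd x z = (p : ℤ) * (cd x z / (p : ℤ)) := (Int.mul_ediv_cancel' h1).symm
    refine ⟨?_, h2⟩
    set s := cd x z / (p : ℤ) with hs
    rw [mem_product, mem_range, mem_range] at hx hz
    have hx1 : (x.1 : ℤ) ≤ R := by exact_mod_cast Nat.lt_succ_iff.1 hx.1
    have hx2 : (x.2 : ℤ) ≤ R := by exact_mod_cast Nat.lt_succ_iff.1 hx.2
    have hz1 : (z.1 : ℤ) ≤ R := by exact_mod_cast Nat.lt_succ_iff.1 hz.1
    have hz2 : (z.2 : ℤ) ≤ R := by exact_mod_cast Nat.lt_succ_iff.1 hz.2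
    have hR0 : (0 : ℤ) ≤ R := by positivity
    have a1 : (x.1 : ℤ) * z.2 ≤ R * R := mul_le_mul hx1 hz2 (by positivity) hR0
    have a2 : (z.1 : ℤ) * x.2 ≤ R * R := mul_le_mul hz1 hx2 (by positivity) hR0
    have a3 : (0 : ℤ) ≤ (x.1 : ℤ) * z.2 := by positivity
    have a4 : (0 : ℤ) ≤ (z.1 : ℤ) * x.2 := by positivity
    have a5 : cd x z ≤ R * R := by unfold cd; linarith
    have a6 : -((R : ℤ) * R) ≤ cd x z := by unfold cd; linarith
    have a7 : (R : ℤ) * R ≤ C₀ * Q := by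
      have : R * R ≤ C₀ * Q := by rw [← sq]; exact hR
      exact_mod_cast this
    have a8 : (C₀ : ℤ) * Q ≤ C₀ * p := by
      have : Q ≤ p := hQp.le
      exact_mod_cast Nat.mul_le_mul_left C₀ this
    rw [mem_Icc]
    constructor
    · by_contra h
      push Not at h
      have : (p : ℤ) * s < (p : ℤ) * (-(C₀ : ℤ)) := mul_lt_mul_of_pos_left h hp0
      nlinarith
    · by_contra h
      push Not at h
      have : (p : ℤ) * (C₀ : ℤ) < (p : ℤ) * s := mul_lt_mul_of_pos_left h hp0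
      nlinarith
  rw [hT, mem_filter, mem_product] at hq
  obtain ⟨⟨hq1, hq2⟩, hq3, hq4, hq5⟩ := hq
  set J : Finset ℤ := Icc (-(C₀ : ℤ)) C₀ with hJ
  have hJc : J.card = 2 * C₀ + 1 := by
    rw [hJ, Int.card_Icc]
    omega
  have hinj : T.card ≤ ((J ×ˢ J) ×ˢ (J ×ˢ J)).card := by
    refine Finset.card_le_card_of_injOn
      (fun w => ((cd w.1 q.2 / (p : ℤ), cd q.1 w.1 / (p : ℤ)),
        (cd w.2 q.2 / (p : ℤ), cd q.1 w.2 / (p : ℤ)))) ?_ ?_
    · intro w hw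
      rw [Finset.mem_coe, hT, mem_filter, mem_product] at hw
      obtain ⟨⟨hw1, hw2⟩, -, hw4, hw5⟩ := hw
      rw [Finset.mem_coe, mem_product, mem_product, mem_product]
      exact ⟨⟨(hb _ _ hw1 hq2 hw4 hq5).1, (hb _ _ hq1 hw1 hq4 hw4).1⟩,
        ⟨(hb _ _ hw2 hq2 hw5 hq5).1, (hb _ _ hq1 hw2 hq4 hw5).1⟩⟩
    · -- injectivity
      have key : ∀ x z : ℕ × ℕ, cd x q.2 = cd z q.2 → cd q.1 x = cd q.1 z → x = z := by
        intro x z h1 h2
        have e1 : (p : ℤ) * x.1 = (p : ℤ) * z.1 := by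
          rw [← hq3]
          have g1 : ∀ x : ℕ × ℕ, cd q.1 q.2 * x.1 = cd x q.2 * q.1.1 + cd q.1 x * q.2.1 := by
            intro x; unfold cd; ring
          rw [g1, g1, h1, h2]
        have e2 : (p : ℤ) * x.2 = (p : ℤ) * z.2 := by
          rw [← hq3]
          have g1 : ∀ x : ℕ × ℕ, cd q.1 q.2 * x.2 = cd x q.2 * q.1.2 + cd q.1 x * q.2.2 := by
            intro x; unfold cd; ring
          rw [g1, g1, h1, h2]
        have e3 := mul_left_cancel₀ hp0.ne' e1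
        have e4 := mul_left_cancel₀ hp0.ne' e2
        exact Prod.ext (by exact_mod_cast e3) (by exact_mod_cast e4)
      intro w hw w' hw' hww
      rw [Finset.mem_coe, hT, mem_filter, mem_product] at hw hw'
      obtain ⟨⟨hw1, hw2⟩, -, hw4, hw5⟩ := hw
      obtain ⟨⟨hw1', hw2'⟩, -, hw4', hw5'⟩ := hw'
      simp only [Prod.mk.injEq] at hww
      obtain ⟨⟨m1, m2⟩, m3, m4⟩ := hww
      refine Prod.ext (key _ _ ?_ ?_) (key _ _ ?_ ?_)
      · rw [(hb _ _ hw1 hq2 hw4 hq5).2, (hb _ _ hw1' hq2 hw4' hq5).2, m1]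
      · rw [(hb _ _ hq1 hw1 hq4 hw4).2, (hb _ _ hq1 hw1' hq4 hw4').2, m2]
      · rw [(hb _ _ hw2 hq2 hw5 hq5).2, (hb _ _ hw2' hq2 hw5' hq5).2, m3]
      · rw [(hb _ _ hq1 hw2 hq4 hw5).2, (hb _ _ hq1 hw2' hq4 hw5').2, m4]
  refine hinj.trans (le_of_eq ?_)
  rw [Finset.card_product, Finset.card_product, hJc]
  ring

end Pool.Agent.W164.EG
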