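import Pool.Agent.W78.EG.Defs
import Pool.Agent.W52.EC.Abel

/-!
# Project EG: the differences of the weight (port of `W52/EC/Abel`)
-/

set_option autoImplicit false

namespace Pool.Agent.W164.EG

open Finset
open Pool.Agent.W78.EG
open Pool.Agent.W78.EC (psi)
open Pool.Agent.W78.GA (Qd nm dt ip nm_castR ip_dt)
open Pool.Agent.W52.EC (sp psi_eq sp_nonneg sp_le sp_diff sp_two)

variable {t c : ℤ}

theorem pp_dt (hD : t ^ 2 < 4 * c) (v u : Qd t c) :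
    4 * ((nm v : ℤ) * nm u) = pp v u ^ 2 + (4 * c - t ^ 2) * dt v u ^ 2 := by
  rw [ip_dt hD]
  unfold pp
  ring

theorem nmq (hD : t ^ 2 < 4 * c) (m₁ m₂ : ℕ) (w₁ w₂ : Qd t c) :
    (nm ((m₂ : Qd t c) * w₁ - (m₁ : Qd t c) * w₂) : ℝ) =
    (m₂ : ℝ) ^ 2 * nm w₁ - 2 * m₁ * m₂ * ((pp w₁ w₂ : ℝ) / 2) + (m₁ : ℝ) ^ 2 * nm w₂ := by
  rw [nm_castR hD, nm_castR hD, nm_castR hD]
  unfold pp ip dt
  simp
  ring

theorem psid (hD : t ^ 2 < 4 * c) : S_PSID t c := by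
  refine ⟨250, by norm_num, ?_⟩
  intro Q X L w₁ w₂ hQ hX hL hw1 hw2 hdt Ψ hΨ m n hm hn
  have hQ1 : (1 : ℝ) ≤ Q := by exact_mod_cast hQ
  have hQ0 : (0 : ℝ) < Q := by linarith
  have hX0 : (0 : ℝ) < X := by linarith
  have hL0 : (0 : ℝ) < L := by linarith
  have hD0 : (0 : ℝ) < (dt w₁ w₂ : ℝ) := lt_of_lt_of_le (by positivity) hdt
  -- bound for the inner product
  have hip : 4 * ((nm w₁ : ℝ) * nm w₂) =
      (pp w₁ w₂ : ℝ) ^ 2 + (4 * (c : ℝ) - (t : ℝ) ^ 2) * (dt w₁ w₂ : ℝ) ^ 2 := by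
    have h := pp_dt hD w₁ w₂
    exact_mod_cast h
  have hDR : (0 : ℝ) < 4 * (c : ℝ) - (t : ℝ) ^ 2 := by
    have : (t : ℝ) ^ 2 < 4 * (c : ℝ) := by exact_mod_cast hD
    linarith
  have hP : |(pp w₁ w₂ : ℝ) / 2| ≤ X := by
    apply abs_le_of_sq_le_sq _ hX0.le
    have h1 : (nm w₁ : ℝ) * nm w₂ ≤ X * X := mul_le_mul hw1 hw2 (Nat.cast_nonneg _) hX0.le
    have h2 : 0 ≤ (4 * (c : ℝ) - (t : ℝ) ^ 2) * (dt w₁ w₂ : ℝ) ^ 2 := by positivity
    nlinarith [h2]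
  -- coefficients
  generalize hA : (nm w₁ : ℝ) / ((dt w₁ w₂ : ℝ) ^ 2 * X) = A
  generalize hB : ((pp w₁ w₂ : ℝ) / 2) / ((dt w₁ w₂ : ℝ) ^ 2 * X) = B
  generalize hC : (nm w₂ : ℝ) / ((dt w₁ w₂ : ℝ) ^ 2 * X) = C
  have hden : 0 < (dt w₁ w₂ : ℝ) ^ 2 * X := by positivity
  have hinv : X / ((dt w₁ w₂ : ℝ) ^ 2 * X) ≤ L ^ 2 / (Q : ℝ) ^ 2 := by
    have h1 : X / ((dt w₁ w₂ : ℝ) ^ 2 * X) = 1 / (dt w₁ w₂ : ℝ) ^ 2 := by
      field_simp
    rw [h1, div_le_div_iff₀ (by positivity) (by positivity), one_mul]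
    have h2 : (Q : ℝ) ≤ L * (dt w₁ w₂ : ℝ) := by
      rw [div_le_iff₀ hL0] at hdt
      linarith
    calc (Q : ℝ) ^ 2 ≤ (L * (dt w₁ w₂ : ℝ)) ^ 2 := pow_le_pow_left₀ hQ0.le h2 2
      _ = L ^ 2 * (dt w₁ w₂ : ℝ) ^ 2 := by ring
  set e : ℝ := L ^ 2 / (Q : ℝ) ^ 2 with he
  have he0 : 0 < e := by positivity
  have hA0 : 0 ≤ A := by rw [← hA]; positivity
  have hC0 : 0 ≤ C := by rw [← hC]; positivity
  have hAe : A ≤ e := by
    rw [← hA]
    exact (div_le_div_of_nonneg_right hw1 hden.le).trans hinv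
  have hCe : C ≤ e := by
    rw [← hC]
    exact (div_le_div_of_nonneg_right hw2 hden.le).trans hinv
  have hBe : |B| ≤ e := by
    rw [← hB, abs_div, abs_of_pos hden]
    exact (div_le_div_of_nonneg_right hP hden.le).trans hinv
  -- the quadratic form
  have hq : ∀ m₁ m₂ : ℕ, Ψ m₁ m₂ =
      sp (4 - (A * (m₂ : ℝ) ^ 2 - 2 * B * m₁ * m₂ + C * (m₁ : ℝ) ^ 2)) := by
    intro m₁ m₂
    rw [hΨ, nmq hD, psi_eq, ← hA, ← hB, ← hC]
    congr 2
    ring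
  have hq0 : ∀ m₁ m₂ : ℕ, 0 ≤ A * (m₂ : ℝ) ^ 2 - 2 * B * m₁ * m₂ + C * (m₁ : ℝ) ^ 2 := by
    intro m₁ m₂
    have h1 : A * (m₂ : ℝ) ^ 2 - 2 * B * m₁ * m₂ + C * (m₁ : ℝ) ^ 2 =
        (nm ((m₂ : Qd t c) * w₁ - (m₁ : Qd t c) * w₂) : ℝ) / ((dt w₁ w₂ : ℝ) ^ 2 * X) := by
      rw [nmq hD, ← hA, ← hB, ← hC]
      ring
    rw [h1]
    positivity
  rw [mem_Ioc] at hm hn
  have hm2 : (m : ℝ) ≤ 2 * Q := by exact_mod_cast hm.2
  have hn2 : (n : ℝ) ≤ 2 * Q := by exact_mod_cast hn.2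
  have hm0 : (0 : ℝ) ≤ m := Nat.cast_nonneg m
  have hn0 : (0 : ℝ) ≤ n := Nat.cast_nonneg n
  have hL4 : (1 : ℝ) ≤ L ^ 4 := one_le_pow₀ hL
  have hL24 : L ^ 2 ≤ L ^ 4 := pow_le_pow_right₀ hL (by norm_num)
  have heQ : e * (Q : ℝ) ^ 2 = L ^ 2 := by
    rw [he]; field_simp
  have q00 := hq0 m n
  have q10 := hq0 (m + 1) n
  have q01 := hq0 m (n + 1)
  have q11 := hq0 (m + 1) (n + 1)
  rw [hq, hq, hq, hq]
  push_cast at q10 q01 q11 ⊢
  generalize hx00 : A * (n : ℝ) ^ 2 - 2 * B * m * n + C * (m : ℝ) ^ 2 = x00 at *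
  generalize hx10 : A * (n : ℝ) ^ 2 - 2 * B * ((m : ℝ) + 1) * n + C * ((m : ℝ) + 1) ^ 2 = x10 at *
  generalize hx01 : A * ((n : ℝ) + 1) ^ 2 - 2 * B * m * ((n : ℝ) + 1) + C * (m : ℝ) ^ 2 = x01 at *
  generalize hx11 : A * ((n : ℝ) + 1) ^ 2 - 2 * B * ((m : ℝ) + 1) * ((n : ℝ) + 1) +
    C * ((m : ℝ) + 1) ^ 2 = x11 at *
  have hBn : |B * n| ≤ e * (2 * Q) := by
    rw [abs_mul, abs_of_nonneg hn0]
    exact mul_le_mul hBe hn2 hn0 he0.le
  have hBm : |B * m| ≤ e * (2 * Q) := by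
    rw [abs_mul, abs_of_nonneg hm0]
    exact mul_le_mul hBe hm2 hm0 he0.le
  have hCm : C * (2 * m + 1) ≤ e * (5 * Q) :=
    mul_le_mul hCe (by linarith) (by positivity) he0.le
  have hAn : A * (2 * n + 1) ≤ e * (5 * Q) :=
    mul_le_mul hAe (by linarith) (by positivity) he0.le
  have hCm0 : 0 ≤ C * (2 * m + 1) := by positivity
  have hAn0 : 0 ≤ A * (2 * n + 1) := by positivity
  have heq2 : e * (2 * Q) = 2 * (e * Q) := by ring
  have heq5 : e * (5 * Q) = 5 * (e * Q) := by ring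
  rw [heq5] at hCm hAn
  rw [abs_le, heq2] at hBn hBm
  have d1 : |x10 - x00| ≤ 9 * (e * Q) := by
    have : x10 - x00 = -2 * (B * n) + C * (2 * m + 1) := by
      rw [← hx10, ← hx00]; ring
    rw [this, abs_le]
    have := mul_pos he0 hQ0
    constructor <;> linarith
  have d2 : |x01 - x00| ≤ 9 * (e * Q) := by
    have : x01 - x00 = -2 * (B * m) + A * (2 * n + 1) := by
      rw [← hx01, ← hx00]; ring
    rw [this, abs_le]
    have := mul_pos he0 hQ0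
    constructor <;> linarith
  have d3 : x11 - x10 - x01 + x00 = -2 * B := by
    rw [← hx11, ← hx10, ← hx01, ← hx00]; ring
  have heQ1 : e * Q = L ^ 2 / Q := by
    rw [he]; field_simp
  have heQL : e * Q ≤ L ^ 2 := by
    rw [heQ1]
    exact div_le_self (by positivity) hQ1
  refine ⟨?_, ?_, ?_, ?_⟩
  · rw [abs_of_nonneg (sp_nonneg _)]
    have := sp_le (x := 4 - x00) (B := 4) (by linarith) (by norm_num)
    linarith
  · have h1 := sp_diff (x := 4 - x10) (y := 4 - x00) (B := 4) (by linarith) (by linarith)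
      (by norm_num)
    have h2 : |4 - x10 - (4 - x00)| = |x10 - x00| := by
      rw [← abs_neg]; congr 1; ring
    rw [h2] at h1
    calc |sp (4 - x10) - sp (4 - x00)| ≤ 2 * 4 * |x10 - x00| := h1
      _ ≤ 2 * 4 * (9 * (L ^ 2 / Q)) := by rw [← heQ1]; linarith
      _ = 72 * L ^ 2 / Q := by ring
      _ ≤ 250 * L ^ 4 / Q := by
          apply div_le_div_of_nonneg_right _ hQ0.le
          linarith
  · have h1 := sp_diff (x := 4 - x01) (y := 4 - x00) (B := 4) (by linarith) (by linarith)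
      (by norm_num)
    have h2 : |4 - x01 - (4 - x00)| = |x01 - x00| := by
      rw [← abs_neg]; congr 1; ring
    rw [h2] at h1
    calc |sp (4 - x01) - sp (4 - x00)| ≤ 2 * 4 * |x01 - x00| := h1
      _ ≤ 2 * 4 * (9 * (L ^ 2 / Q)) := by rw [← heQ1]; linarith
      _ = 72 * L ^ 2 / Q := by ring
      _ ≤ 250 * L ^ 4 / Q := by
          apply div_le_div_of_nonneg_right _ hQ0.le
          linarith
  · have h1 := sp_two (4 - x00) (x00 - x01) (x00 - x10)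
    have e1 : 4 - x00 + (x00 - x10) = 4 - x10 := by ring
    have e2 : 4 - x00 + (x00 - x01) = 4 - x01 := by ring
    have e3 : 4 - x10 + (x00 - x01) = 4 - x11 + (x11 - x10 - x01 + x00) := by ring
    rw [e1, e2, e3, d3] at h1
    rw [abs_sub_comm x00 x01, abs_sub_comm x00 x10] at h1
    have h2 := sp_diff (x := 4 - x11) (y := 4 - x11 + -2 * B) (B := 13 * L ^ 2)
      (by
        have := one_le_pow₀ hL (n := 2)
        linarith) (by
        rw [← d3]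
        rw [abs_le] at d2
        have := one_le_pow₀ hL (n := 2)
        linarith) (by positivity)
    have h3 : |4 - x11 - (4 - x11 + -2 * B)| = 2 * |B| := by
      have : 4 - x11 - (4 - x11 + -2 * B) = 2 * B := by ring
      rw [this, abs_mul]; norm_num
    rw [h3] at h2
    have h4 : 2 * |x01 - x00| * |x10 - x00| ≤ 162 * (e * Q) ^ 2 := by
      have := mul_le_mul d2 d1 (abs_nonneg _) (by positivity)
      have h10 : 9 * (e * Q) * (9 * (e * Q)) = 81 * (e * Q) ^ 2 := by ring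
      rw [h10] at this
      linarith
    have h5 : 2 * (13 * L ^ 2) * (2 * |B|) ≤ 52 * L ^ 2 * e := by
      have := mul_le_mul_of_nonneg_left hBe (show 0 ≤ 52 * L ^ 2 by positivity)
      linarith
    have h6 : (e * Q) ^ 2 = L ^ 4 / (Q : ℝ) ^ 2 := by
      rw [heQ1]; ring
    have h7 : L ^ 2 * e = L ^ 4 / (Q : ℝ) ^ 2 := by
      rw [he]; ring
    have h8 : 0 ≤ L ^ 4 / (Q : ℝ) ^ 2 := by positivity
    have h9 : sp (4 - x11) - sp (4 - x10) - sp (4 - x01) + sp (4 - x00) =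
        (sp (4 - x11 + -2 * B) - sp (4 - x10) - sp (4 - x01) + sp (4 - x00)) +
        (sp (4 - x11) - sp (4 - x11 + -2 * B)) := by ring
    rw [h9]
    calc _ ≤ |sp (4 - x11 + -2 * B) - sp (4 - x10) - sp (4 - x01) + sp (4 - x00)| +
          |sp (4 - x11) - sp (4 - x11 + -2 * B)| := abs_add_le _ _
      _ ≤ 162 * (L ^ 4 / (Q : ℝ) ^ 2) + 52 * (L ^ 4 / (Q : ℝ) ^ 2) := by
          rw [h6] at h4
          refine add_le_add (h1.trans h4) (h2.trans (h5.trans (le_of_eq ?_)))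
          rw [← h7]; ring
      _ ≤ 250 * (L ^ 4 / (Q : ℝ) ^ 2) := by linarith
      _ = 250 * L ^ 4 / (Q : ℝ) ^ 2 := by ring

end Pool.Agent.W164.EG
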